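import Pool.Agent.Helper13.Venn.Defs

/-! # VD-7: interior and exterior of the unit sphere of `ℝ^4` -/

namespace Pool.Agent.Helper13.Venn

open Set Metric Topology Bornology

theorem vd7_rank : 1 < Module.rank ℝ (E 4) := by
  rw [← Module.finrank_eq_rank, finrank_euclideanSpace_fin]
  norm_num

theorem vd7_compl : (sphere (0 : E 4) 1)ᶜ = ball (0 : E 4) 1 ∪ {y | 1 < ‖y‖} := by
  ext y
  simp only [mem_compl_iff, mem_sphere_iff_norm, sub_zero, mem_union, mem_ball_zero_iff,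
    Set.mem_ofPred_eq]
  exact ne_iff_lt_or_gt

theorem vd7_ext_preconn : IsPreconnected {y : E 4 | 1 < ‖y‖} := by
  have h1 : IsPreconnected (sphere (0 : E 4) 1) := isPreconnected_sphere vd7_rank 0 1
  have h2 : IsPreconnected (Ioi (1 : ℝ) ×ˢ sphere (0 : E 4) 1) := isPreconnected_Ioi.prod h1
  have h3 := h2.image (fun p : ℝ × E 4 => p.1 • p.2) (by fun_prop)
  convert h3 using 1
  ext y
  simp only [Set.mem_ofPred_eq, mem_image, mem_prod, mem_Ioi, mem_sphere_iff_norm, sub_zero,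
    Prod.exists]
  constructor
  · intro hy
    have hy0 : ‖y‖ ≠ 0 := by linarith
    refine ⟨‖y‖, ‖y‖⁻¹ • y, ⟨hy, ?_⟩, ?_⟩
    · rw [norm_smul, norm_inv, norm_norm, inv_mul_cancel₀ hy0]
    · rw [smul_smul, mul_inv_cancel₀ hy0, one_smul]
  · rintro ⟨t, z, ⟨ht, hz⟩, rfl⟩
    rw [norm_smul, hz, mul_one, Real.norm_eq_abs]
    exact lt_of_lt_of_le ht (le_abs_self t)

theorem vd7_disj : Disjoint (ball (0 : E 4) 1) {y : E 4 | 1 < ‖y‖} := by
  rw [Set.disjoint_left]
  intro y hy hy'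
  rw [mem_ball_zero_iff] at hy
  have : 1 < ‖y‖ := hy'
  linarith

theorem vd7_open : IsOpen {y : E 4 | 1 < ‖y‖} := isOpen_lt continuous_const continuous_norm

theorem vd7_comp_ball {x : E 4} (hx : x ∈ ball (0 : E 4) 1) :
    connectedComponentIn (sphere (0 : E 4) 1)ᶜ x ⊆ ball (0 : E 4) 1 := by
  have hxc : x ∈ (sphere (0 : E 4) 1)ᶜ := by rw [vd7_compl]; exact Or.inl hx
  refine isPreconnected_connectedComponentIn.subset_left_of_subset_union isOpen_ball vd7_open
    vd7_disj ?_ ⟨x, mem_connectedComponentIn hxc, hx⟩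
  rw [← vd7_compl]
  exact connectedComponentIn_subset _ _

theorem vd7_comp_ext {x : E 4} (hx : 1 < ‖x‖) :
    {y : E 4 | 1 < ‖y‖} ⊆ connectedComponentIn (sphere (0 : E 4) 1)ᶜ x :=
  vd7_ext_preconn.subset_connectedComponentIn hx (by rw [vd7_compl]; exact subset_union_right)

theorem vd7_unbdd : ¬ IsBounded {y : E 4 | 1 < ‖y‖} := by
  intro h
  obtain ⟨R, hR⟩ := h.subset_closedBall 0
  obtain ⟨y, hy⟩ := NormedSpace.exists_lt_norm ℝ (E 4) (max R 1)
  have h1 : (1 : ℝ) < ‖y‖ := (le_max_right _ _).trans_lt hy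
  have h2 := hR h1
  rw [mem_closedBall_zero_iff] at h2
  have h3 := le_max_left R 1
  linarith

theorem vd7_inner : inner (sphere (0 : E 4) 1) = ball (0 : E 4) 1 := by
  ext x
  constructor
  · rintro ⟨h1, h2⟩
    have hx : x ∈ ball (0 : E 4) 1 ∪ {y | 1 < ‖y‖} := by rw [← vd7_compl]; exact h1
    rcases hx with hx | hx
    · exact hx
    · exact absurd (h2.subset (vd7_comp_ext hx)) vd7_unbdd
  · intro hx
    refine ⟨?_, isBounded_ball.subset (vd7_comp_ball hx)⟩
    have : x ∈ (sphere (0 : E 4) 1)ᶜ := by rw [vd7_compl]; exact Or.inl hx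
    exact this

theorem vd7_outer : outer (sphere (0 : E 4) 1) = {y : E 4 | 1 < ‖y‖} := by
  ext x
  constructor
  · rintro ⟨h1, h2⟩
    have hx : x ∈ ball (0 : E 4) 1 ∪ {y | 1 < ‖y‖} := by rw [← vd7_compl]; exact h1
    rcases hx with hx | hx
    · exact absurd (isBounded_ball.subset (vd7_comp_ball hx)) h2
    · exact hx
  · intro hx
    refine ⟨?_, fun h => vd7_unbdd (h.subset (vd7_comp_ext hx))⟩
    have : x ∈ (sphere (0 : E 4) 1)ᶜ := by rw [vd7_compl]; exact Or.inr hx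
    exact this

theorem vd7_surface : IsSurface 4 (sphere (0 : E 4) 1) := ⟨Homeomorph.refl _⟩

theorem homeo_inner : ∃ T : Set (E 4), IsSurface 4 T ∧ Nonempty (E 4 ≃ₜ inner T) :=
  ⟨sphere 0 1, vd7_surface, ⟨Homeomorph.unitBall.trans (Homeomorph.setCongr vd7_inner.symm)⟩⟩

theorem homeo_outer (x : E 4) :
    ∃ T : Set (E 4), IsSurface 4 T ∧ Nonempty (({x}ᶜ : Set (E 4)) ≃ₜ outer T) := by
  refine ⟨sphere 0 1, vd7_surface, ⟨Homeomorph.trans ?_ (Homeomorph.setCongr vd7_outer.symm)⟩⟩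
  have hne : ∀ z : ({x}ᶜ : Set (E 4)), 0 < ‖(z : E 4) - x‖ := fun z =>
    norm_pos_iff.2 (sub_ne_zero.2 z.2)
  have hpos : ∀ y : {y : E 4 | 1 < ‖y‖}, 0 < ‖(y : E 4)‖ := fun y => by
    have : 1 < ‖(y : E 4)‖ := y.2
    linarith
  have hn1 : ∀ z : ({x}ᶜ : Set (E 4)), ‖(1 + ‖(z : E 4) - x‖⁻¹) • ((z : E 4) - x)‖ =
      ‖(z : E 4) - x‖ + 1 := by
    intro z
    have := hne z
    rw [norm_smul, Real.norm_eq_abs, abs_of_pos (by positivity)]
    field_simp
  have hn2 : ∀ y : {y : E 4 | 1 < ‖y‖}, ‖(1 - ‖(y : E 4)‖⁻¹) • (y : E 4)‖ = ‖(y : E 4)‖ - 1 := by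
    intro y
    have h1 : 1 < ‖(y : E 4)‖ := y.2
    have h2 : ‖(y : E 4)‖⁻¹ < 1 := inv_lt_one_of_one_lt₀ h1
    have h3 := hpos y
    rw [norm_smul, Real.norm_eq_abs, abs_of_pos (by linarith)]
    field_simp
  exact
    { toFun := fun z => ⟨(1 + ‖(z : E 4) - x‖⁻¹) • ((z : E 4) - x), by
        show 1 < ‖(1 + ‖(z : E 4) - x‖⁻¹) • ((z : E 4) - x)‖
        rw [hn1]
        have := hne z
        linarith⟩
      invFun := fun y => ⟨x + (1 - ‖(y : E 4)‖⁻¹) • (y : E 4), by
        have h1 : 1 < ‖(y : E 4)‖ := y.2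
        have h2 := hn2 y
        intro h
        rw [mem_singleton_iff, add_eq_left] at h
        rw [h, norm_zero] at h2
        linarith⟩
      left_inv := fun z => by
        apply Subtype.ext
        show x + (1 - ‖(1 + ‖(z : E 4) - x‖⁻¹) • ((z : E 4) - x)‖⁻¹) •
          ((1 + ‖(z : E 4) - x‖⁻¹) • ((z : E 4) - x)) = z
        rw [hn1, smul_smul]
        have h1 := hne z
        have : (1 - (‖(z : E 4) - x‖ + 1)⁻¹) * (1 + ‖(z : E 4) - x‖⁻¹) = 1 := by
          field_simp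
          ring
        rw [this, one_smul]
        abel
      right_inv := fun y => by
        apply Subtype.ext
        show (1 + ‖x + (1 - ‖(y : E 4)‖⁻¹) • (y : E 4) - x‖⁻¹) •
          (x + (1 - ‖(y : E 4)‖⁻¹) • (y : E 4) - x) = y
        rw [add_sub_cancel_left, hn2, smul_smul]
        have h1 : 1 < ‖(y : E 4)‖ := y.2
        have h2 : ‖(y : E 4)‖ - 1 ≠ 0 := by linarith
        have h3 : ‖(y : E 4)‖ ≠ 0 := by linarith
        have : (1 + (‖(y : E 4)‖ - 1)⁻¹) * (1 - ‖(y : E 4)‖⁻¹) = 1 := by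
          field_simp
          ring
        rw [this, one_smul]
      continuous_toFun := by
        refine Continuous.subtype_mk ?_ _
        have h1 : Continuous fun z : ({x}ᶜ : Set (E 4)) => (z : E 4) - x :=
          continuous_subtype_val.sub continuous_const
        exact (continuous_const.add (h1.norm.inv₀ fun z => (hne z).ne')).smul h1
      continuous_invFun := by
        refine Continuous.subtype_mk ?_ _
        have h1 : Continuous fun y : {y : E 4 | 1 < ‖y‖} => (y : E 4) := continuous_subtype_val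
        exact continuous_const.add
          ((continuous_const.sub (h1.norm.inv₀ fun y => (hpos y).ne')).smul h1) }

end Pool.Agent.Helper13.Venn
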