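import Pool.Agent.Helper13.Venn.Defs

/-! # VD-11a: counting components with a label; choice of the last two coordinates -/

namespace Pool.Agent.Helper13.Venn

open Set Metric Topology Bornology

theorem vd11_phi_smul (t x y z : ℝ) (ht : 0 < t) :
    phi (t * x) (t * y) (t * z) = t * phi x y z := by
  unfold phi
  rw [← abs_of_pos ht]
  simp only [abs_of_pos ht]
  have h1 : |t * y - 2 * (t * x)| = t * |y - 2 * x| := by
    rw [← abs_of_pos ht, ← abs_mul, abs_of_pos ht]; congr 1; ring
  have h2 : |t * z| = t * |z| := by rw [abs_mul, abs_of_pos ht]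
  rw [h1, h2]
  rw [show t * |y - 2 * x| + t * |z| - t * x = t * (|y - 2 * x| + |z| - x) by ring, abs_mul,
    abs_of_pos ht]

theorem vd11_max_smul (t a : ℝ) (ht : 0 < t) : max 0 (t * a) = t * max 0 a := by
  rw [mul_max_of_nonneg _ _ ht.le, mul_zero]

theorem vd11_FU_smul (t x y z : ℝ) (ht : 0 < t) : FU (t * x) (t * y) (t * z) = t * FU x y z := by
  unfold FU
  rw [vd11_phi_smul t x y z ht, mul_min_of_nonneg _ _ ht.le]
  congr 1
  · rw [show 2 * (t * x) - t * y = t * (2 * x - y) by ring, vd11_max_smul t _ ht]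
    ring
  · rw [show t * y - t * x = t * (y - x) by ring, abs_mul, abs_mul, abs_mul, abs_of_pos ht]
    ring

theorem vd11_FL_smul (t x y z : ℝ) (ht : 0 < t) : FL (t * x) (t * y) (t * z) = t * FL x y z := by
  unfold FL
  rw [vd11_phi_smul t x y z ht, mul_min_of_nonneg _ _ ht.le]
  congr 1
  · rw [show t * y - 2 * (t * x) = t * (y - 2 * x) by ring, vd11_max_smul t _ ht]
    ring
  · rw [show t * y - 3 * (t * x) = t * (y - 3 * x) by ring, abs_mul, abs_mul, abs_mul,
      abs_of_pos ht]
    ring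

theorem vd11_hgt_smul (t x y z v : ℝ) (ht : 0 < t) :
    hgt (t * x) (t * y) (t * z) (t * v) = t * hgt x y z v := by
  unfold hgt
  rw [vd11_FU_smul t x y z ht, vd11_FL_smul t x y z ht, mul_min_of_nonneg _ _ ht.le]
  congr 1 <;> ring

theorem vd11_g_smul (i : Fin 6) (t : ℝ) (ht : 0 < t) (p : E 5) : g i (t • p) = t * g i p := by
  unfold g
  split_ifs with h
  · simp
  · simp only [PiLp.smul_apply, smul_eq_mul]
    rw [vd11_hgt_smul _ _ _ _ _ ht]
    ring

theorem vd11_g_pInf (i : Fin 6) : g i pInf < 0 := by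
  fin_cases i
  · simp [g, pInf]
    norm_num
  · simp [g, pInf]
    norm_num
  · simp [g, pInf]
    norm_num
  · simp [g, pInf]
    norm_num
  · simp [g, pInf]
    norm_num
  · simp [g, pInf, hgt, FU, FL, phi]
    norm_num [abs_of_pos, abs_of_neg]

/-- counting components with a continuous label and sample points in the model -/
theorem count_components (ι : E 4 → E 5) (hι : IsEmbedding ι)
    (hr : range ι = {p : E 5 | ‖p‖ = 1 ∧ p ≠ pInf}) (i : Fin 6) {α β : Type} [Fintype α]
    [TopologicalSpace β] [DiscreteTopology β] (L : E 5 → β)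
    (hL : ContinuousOn L {p : E 5 | p ≠ 0 ∧ g i p = 0 ∧ ∀ j, j ≠ i → g j p ≠ 0})
    (hLs : ∀ (t : ℝ) (p : E 5), 0 < t → L (t • p) = L p) (s : α → E 5)
    (hs : ∀ a, s a ≠ 0 ∧ g i (s a) = 0 ∧ ∀ j, j ≠ i → g j (s a) ≠ 0)
    (hinj : Function.Injective (fun a => L (s a))) :
    (Fintype.card α : ℕ∞) ≤
      ENat.card (ConnectedComponents (free (fun i => {y : E 4 | g i (ι y) = 0}) i)) := by
  have hmem : ∀ y : E 4, ‖ι y‖ = 1 ∧ ι y ≠ pInf := fun y => by
    have : ι y ∈ range ι := ⟨y, rfl⟩
    rw [hr] at this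
    exact this
  have hcont : Continuous (fun y : free (fun i => {y : E 4 | g i (ι y) = 0}) i => L (ι y)) := by
    have h1 : Continuous (fun y : free (fun i => {y : E 4 | g i (ι y) = 0}) i => ι y) :=
      hι.continuous.comp continuous_subtype_val
    refine hL.comp_continuous h1 fun y => ⟨?_, y.2.1, fun j hj => y.2.2 j hj⟩
    intro h0
    have := (hmem y).1
    rw [h0, norm_zero] at this
    exact zero_ne_one this
  have hsample : ∀ a : α, ∃ y : free (fun i => {y : E 4 | g i (ι y) = 0}) i,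
      ι y = ‖s a‖⁻¹ • s a := by
    intro a
    obtain ⟨h1, h2, h3⟩ := hs a
    have hn : 0 < ‖s a‖ := norm_pos_iff.2 h1
    have hn' : 0 < ‖s a‖⁻¹ := inv_pos.2 hn
    have hr' : ‖s a‖⁻¹ • s a ∈ range ι := by
      rw [hr]
      refine ⟨?_, fun h => ?_⟩
      · rw [norm_smul, norm_inv, norm_norm, inv_mul_cancel₀ hn.ne']
      · have h4 := vd11_g_pInf i
        rw [← h, vd11_g_smul i _ hn', h2, mul_zero] at h4
        exact lt_irrefl _ h4
    obtain ⟨y, hy⟩ := hr'
    refine ⟨⟨y, ?_, fun j hj => ?_⟩, hy⟩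
    · show g i (ι y) = 0
      rw [hy, vd11_g_smul i _ hn', h2, mul_zero]
    · show ¬ g j (ι y) = 0
      rw [hy, vd11_g_smul j _ hn']
      exact mul_ne_zero hn'.ne' (h3 j hj)
  choose y hy using hsample
  have hinj' : Function.Injective (fun a => (ConnectedComponents.mk (y a) :
      ConnectedComponents (free (fun i => {y : E 4 | g i (ι y) = 0}) i))) := by
    intro a b hab
    apply hinj
    have h1 := congrArg (hcont.connectedComponentsLift) hab
    have h2 : L (ι (y a)) = L (ι (y b)) := by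
      simpa only [Continuous.connectedComponentsLift_apply_coe] using h1
    rw [hy, hy, hLs _ _ (inv_pos.2 (norm_pos_iff.2 (hs a).1)),
      hLs _ _ (inv_pos.2 (norm_pos_iff.2 (hs b).1))] at h2
    exact h2
  rw [← ENat.card_eq_coe_fintype_card]
  exact ENat.card_le_card_of_injective hinj'

/-- choice of `v` and `s` with prescribed signs; `k = 0`: above, `k = 1`: below, `k = 2`:
between with `0 < s < h`, `k = 3`: between with `h < s < 0` -/
theorem exists_vs (x y z : ℝ) (hU : 0 < FU x y z) (hL : 0 < FL x y z) (σ : Bool) (k : Fin 4) :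
    ∃ v s : ℝ, (if σ then 0 < v else v < 0) ∧
      (match k with
        | 0 => 0 < s ∧ 0 < s - hgt x y z v
        | 1 => s < 0 ∧ s - hgt x y z v < 0
        | 2 => 0 < s ∧ s - hgt x y z v < 0
        | 3 => s < 0 ∧ 0 < s - hgt x y z v) := by
  have hpos : ∃ v : ℝ, (if σ then 0 < v else v < 0) ∧ 0 < hgt x y z v := by
    cases σ
    · refine ⟨-(FL x y z / 2), by simp; linarith, ?_⟩
      exact lt_min (by linarith) (by linarith)
    · refine ⟨FU x y z / 2, by simp; linarith, ?_⟩
      exact lt_min (by linarith) (by linarith)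
  have hneg : ∃ v : ℝ, (if σ then 0 < v else v < 0) ∧ hgt x y z v < 0 := by
    cases σ
    · refine ⟨-(FL x y z) - 1, by simp; linarith, ?_⟩
      exact (min_le_right _ _).trans_lt (by linarith)
    · refine ⟨FU x y z + 1, by simp; linarith, ?_⟩
      exact (min_le_left _ _).trans_lt (by linarith)
  obtain ⟨v, hv, hh⟩ := hpos
  obtain ⟨w, hw, hh'⟩ := hneg
  fin_cases k
  · exact ⟨v, 2 * hgt x y z v, hv, by dsimp only; constructor <;> linarith⟩
  · exact ⟨w, 2 * hgt x y z w, hw, by dsimp only; constructor <;> linarith⟩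
  · exact ⟨v, hgt x y z v / 2, hv, by dsimp only; constructor <;> linarith⟩
  · exact ⟨w, hgt x y z w / 2, hw, by dsimp only; constructor <;> linarith⟩

end Pool.Agent.Helper13.Venn
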